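import Mathlib
import Pool.Agent.Helper18.BV.St

/-!
# Project BV, module A6: Fourier representation of test functions
-/

set_option autoImplicit false

open MeasureTheory FourierTransform SchwartzMap

namespace Pool.Agent.Helper46.BV

open Pool.Agent.Helper18.BV

theorem integrable_G (F : SchwartzMap ℝ ℂ) (N : ℕ) (c : ℝ) :
    Integrable (fun x : ℝ => (1 + c * |x|) ^ N * ‖F x‖) := by
  have h1 : (fun x : ℝ => (1 + c * |x|) ^ N * ‖F x‖) = fun x : ℝ =>
      ∑ m ∈ Finset.range (N + 1), (c ^ (N - m) * (N.choose m : ℝ)) *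
        (‖x‖ ^ (N - m) * ‖F x‖) := by
    funext x
    rw [add_pow, Finset.sum_mul]
    refine Finset.sum_congr rfl fun m _ => ?_
    rw [one_pow, mul_pow, Real.norm_eq_abs]
    ring
  rw [h1]
  refine integrable_finsetSum _ fun m _ => ?_
  exact (F.integrable_pow_mul volume (N - m)).const_mul _

theorem fourierRep : FourierRep := by
  intro g hg hc
  have h1 : HasCompactSupport (fun v : ℝ => (g v : ℂ)) := hc.comp_left (g := Complex.ofReal) Complex.ofReal_zero
  have h2 : ContDiff ℝ (⊤ : ℕ∞) (fun v : ℝ => (g v : ℂ)) := Complex.ofRealCLM.contDiff.comp hg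
  obtain ⟨G, hG⟩ : ∃ G : SchwartzMap ℝ ℂ, ∀ v, G v = (g v : ℂ) :=
    ⟨h1.toSchwartzMap h2, fun v => rfl⟩
  obtain ⟨F, hF⟩ : ∃ F : SchwartzMap ℝ ℂ, 𝓕⁻ F = G :=
    ⟨𝓕 G, FourierTransform.fourierInv_fourier_eq G⟩
  have hpi : (0 : ℝ) < 2 * Real.pi := by positivity
  refine ⟨fun t => F (t / (2 * Real.pi)) / (2 * Real.pi), ?_, fun N => ?_, fun v => ?_⟩
  · exact (F.continuous.comp (continuous_id.div_const _)).div_const _
  · have h3 := ((integrable_G F N (2 * Real.pi)).comp_div hpi.ne').div_const (2 * Real.pi)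
    refine h3.congr (Filter.Eventually.of_forall fun t => ?_)
    simp only
    rw [abs_div, abs_of_pos hpi, mul_div_cancel₀ _ hpi.ne', norm_div, mul_div_assoc]
    congr 2
    rw [← Complex.ofReal_ofNat, ← Complex.ofReal_mul, Complex.norm_real, Real.norm_of_nonneg hpi.le]
  · have h4 : (g v : ℂ) = 𝓕⁻ (F : ℝ → ℂ) v := by rw [← hG, ← hF, fourierInv_coe]
    rw [h4, Real.fourierInv_eq']
    have h5 := MeasureTheory.Measure.integral_comp_div (fun ξ : ℝ =>
      Complex.exp (((2 * Real.pi * inner ℝ ξ v : ℝ) : ℂ) * Complex.I) • F ξ) (2 * Real.pi)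
    rw [abs_of_pos hpi] at h5
    have h6 : ∀ t : ℝ, F (t / (2 * Real.pi)) / (2 * Real.pi) * Complex.exp (t * v * Complex.I) =
        (1 / (2 * Real.pi) : ℂ) * ((fun ξ : ℝ =>
      Complex.exp (((2 * Real.pi * inner ℝ ξ v : ℝ) : ℂ) * Complex.I) • F ξ) (t / (2 * Real.pi))) := by
      intro t
      have : ((2 * Real.pi * inner ℝ (t / (2 * Real.pi)) v : ℝ) : ℂ) = t * v := by
        have h8 : inner ℝ (t / (2 * Real.pi)) v = v * (t / (2 * Real.pi)) := by
          simp [RCLike.inner_apply]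
        rw [h8]
        push_cast
        field_simp
      simp only [this, smul_eq_mul]
      ring
    simp_rw [h6]
    rw [integral_const_mul, h5]
    rw [Complex.real_smul, ← mul_assoc]
    have h7 : (1 / (2 * Real.pi) : ℂ) * ((2 * Real.pi : ℝ) : ℂ) = 1 := by
      push_cast
      field_simp
    rw [h7, one_mul]

end Pool.Agent.Helper46.BV
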