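import Mathlib
import Pool.Agent.Helper18.BV.St

/-!
# Project BV, module D2: prescribed quadratic characters
-/

set_option autoImplicit false

open Finset

namespace Pool.Agent.Helper46.BV

open Pool.Agent.Helper18.BV

/-- the residue class modulo an odd prime -/
theorem exists_class (T : Finset ℕ) (h3 : 3 ∉ T) (r : ℕ) (hr : r.Prime) (hr2 : r ≠ 2) :
    ∃ c : ℕ, c % r ≠ 0 ∧ c % r ≠ 1 ∧ ∀ m : ℕ, m ≡ c [MOD r] → ∀ _ : Fact r.Prime,
      legendreSym r m = (-1) ^ (r / 2) * (if r ∈ T then -1 else 1) := by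
  have hF : Fact r.Prime := ⟨hr⟩
  have key : ∀ (c m : ℕ), m ≡ c [MOD r] → legendreSym r m = legendreSym r c := by
    intro c m h
    rw [legendreSym.mod r m, legendreSym.mod r c]
    have : ((m : ℤ) % r) = (c : ℤ) % r := by exact_mod_cast h
    rw [this]
  have hodd : r % 2 = 1 := hr.eq_two_or_odd.resolve_left hr2
  have hval : ((-1 : ℤ) ^ (r / 2) * (if r ∈ T then -1 else 1)) = 1 ∨
      ((-1 : ℤ) ^ (r / 2) * (if r ∈ T then -1 else 1)) = -1 := by
    rcases neg_one_pow_eq_or ℤ (r / 2) with h | h <;> rw [h] <;> split_ifs <;> simp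
  rcases hval with hv | hv
  · -- the class of 4
    have hr3 : r ≠ 3 := by
      rintro rfl
      rw [if_neg h3] at hv
      norm_num at hv
    have hr5 : 5 ≤ r := by
      have := hr.two_le
      rcases Nat.lt_or_ge r 5 with h | h
      · interval_cases r <;> omega
      · exact h
    refine ⟨4, ?_, ?_, fun m hm _ => ?_⟩
    · rw [Nat.mod_eq_of_lt (by omega)]
      norm_num
    · rw [Nat.mod_eq_of_lt (by omega)]
      norm_num
    · rw [hv, key 4 m hm]
      have h4 : ((4 : ℕ) : ZMod r) ≠ 0 := by
        rw [Ne, ZMod.natCast_eq_zero_iff]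
        intro h
        have := Nat.le_of_dvd (by norm_num) h
        omega
      rw [legendreSym.eq_one_iff' r h4]
      exact ⟨2, by norm_num⟩
  · obtain ⟨a, ha⟩ := FiniteField.exists_nonsquare (F := ZMod r) (by
      rw [ZMod.ringChar_zmod_n]
      exact hr2)
    have hcast : ((a.val : ℕ) : ZMod r) = a := ZMod.natCast_zmod_val a
    have h0 : a ≠ 0 := by
      rintro rfl
      exact ha ⟨0, by simp⟩
    have h1 : a ≠ 1 := by
      rintro rfl
      exact ha ⟨1, by simp⟩
    have hlt : a.val < r := ZMod.val_lt a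
    refine ⟨a.val, ?_, ?_, fun m hm _ => ?_⟩
    · rw [Nat.mod_eq_of_lt hlt]
      intro h
      exact h0 ((ZMod.val_eq_zero a).1 h)
    · rw [Nat.mod_eq_of_lt hlt]
      intro h
      apply h1
      rw [← hcast, h, Nat.cast_one]
    · rw [hv, key _ m hm, legendreSym.eq_neg_one_iff', hcast]
      exact ha

theorem legendre_eq (T : Finset ℕ) (p : ℕ) [Fact p.Prime] (w : ℕ)
    (h : ∀ r : ℕ, r.Prime → r ≤ w → legendreSym p r = if r ∈ T then -1 else 1) (n : ℕ)
    (hn : 1 ≤ n) (hnw : n ≤ w) :
    legendreSym p n = (-1) ^ (∑ q ∈ T, n.factorization q) := by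
  induction n using Nat.strong_induction_on with
  | _ n ih =>
    rcases Nat.lt_or_ge 1 n with h1 | h1
    · have hp := Nat.minFac_prime (by omega : n ≠ 1)
      obtain ⟨m, hm⟩ := Nat.minFac_dvd n
      set r := n.minFac with hr
      have hm0 : m ≠ 0 := by
        rintro rfl
        omega
      have hrn : r ≤ n := Nat.minFac_le (by omega)
      have hmn : m < n := by
        rw [hm]
        have := hp.two_le
        nlinarith [Nat.pos_of_ne_zero hm0]
      have ih' := ih m hmn (Nat.pos_of_ne_zero hm0) (by omega)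
      have hf : n.factorization = r.factorization + m.factorization := by
        conv_lhs => rw [hm]
        exact Nat.factorization_mul hp.ne_zero hm0
      have hs : ∑ q ∈ T, n.factorization q = (if r ∈ T then 1 else 0) +
          ∑ q ∈ T, m.factorization q := by
        rw [hf]
        simp only [Finsupp.add_apply, Finset.sum_add_distrib]
        congr 1
        rw [hp.factorization]
        simp [Finsupp.single_apply]
      have hl : legendreSym p n = legendreSym p r * legendreSym p m := by
        rw [← legendreSym.mul]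
        congr 1
        exact_mod_cast hm
      rw [hl, h r hp (hrn.trans hnw), ih', hs, pow_add]
      congr 1
      split_ifs <;> simp
    · have : n = 1 := by omega
      subst this
      simp

theorem pattern : Pattern := by
  intro T w hT
  have hT3 : 3 ∉ T := fun h => by
    have := (hT 3 h).2.1
    omega
  have hT2 : 2 ∉ T := fun h => by
    have := (hT 2 h).2.1
    omega
  have hcl : ∀ r : ℕ, ∃ c : ℕ, (r.Prime ∧ r ≠ 2) → (c % r ≠ 0 ∧ c % r ≠ 1 ∧
      ∀ m : ℕ, m ≡ c [MOD r] → ∀ _ : Fact r.Prime,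
        legendreSym r m = (-1) ^ (r / 2) * (if r ∈ T then -1 else 1)) := by
    intro r
    by_cases h : r.Prime ∧ r ≠ 2
    · obtain ⟨c, hc⟩ := exists_class T hT3 r h.1 h.2
      exact ⟨c, fun _ => hc⟩
    · exact ⟨0, fun h' => absurd h' h⟩
  choose c hc using hcl
  set P : Finset ℕ := (Finset.range (w + 1)).filter fun r => r.Prime ∧ r ≠ 2 with hP
  have hPp : ∀ r ∈ P, r.Prime ∧ r ≠ 2 := fun r hr => (Finset.mem_filter.1 hr).2
  obtain ⟨u0, hu0⟩ := Nat.chineseRemainderOfFinset c id P
    (fun r hr => (hPp r hr).1.ne_zero) (by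
      intro r hr r' hr' hne
      exact (Nat.coprime_primes (hPp r hr).1 (hPp r' hr').1).2 hne)
  have hcop : Nat.Coprime 8 (∏ r ∈ P, r) := by
    refine Nat.Coprime.prod_right fun r hr => ?_
    have h1 : Nat.Coprime 2 r := (Nat.coprime_primes Nat.prime_two (hPp r hr).1).2
      (hPp r hr).2.symm
    exact Nat.Coprime.pow_left 3 h1
  obtain ⟨u, hu8, huP⟩ := Nat.chineseRemainder hcop 7 u0
  have hur : ∀ r ∈ P, u ≡ c r [MOD r] := by
    intro r hr
    have h1 : u ≡ u0 [MOD r] := huP.of_dvd (Finset.dvd_prod_of_mem _ hr)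
    exact h1.trans (hu0 r hr)
  have hu8' : u % 8 = 7 := hu8
  refine ⟨8 * ∏ r ∈ P, r, u, ?_, ?_, hu8', Dvd.intro _ rfl, ?_, ?_⟩
  · have : 0 < ∏ r ∈ P, r := Finset.prod_pos fun r hr => (hPp r hr).1.pos
    omega
  · refine Nat.Coprime.mul_right ?_ ?_
    · have h1 : Nat.Coprime u 2 := by
        rw [Nat.coprime_two_right, Nat.odd_iff]
        omega
      exact Nat.Coprime.pow_right 3 h1
    · refine Nat.Coprime.prod_right fun r hr => ?_
      rw [Nat.coprime_comm, (hPp r hr).1.coprime_iff_not_dvd]
      intro hd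
      have h1 := (hc r (hPp r hr)).1
      have h2 : u % r = c r % r := hur r hr
      rw [← h2] at h1
      exact h1 (Nat.mod_eq_zero_of_dvd hd)
  · intro r hr hr2 hrv
    have h1 : r ∣ ∏ r ∈ P, r := by
      rcases hr.dvd_mul.1 hrv with h | h
      · exfalso
        have h8 : r ∣ 2 ^ 3 := by norm_num; exact h
        exact hr2 ((Nat.prime_dvd_prime_iff_eq hr Nat.prime_two).1 (hr.dvd_of_dvd_pow h8))
      · exact h
    obtain ⟨r', hr', hd⟩ := (hr.prime.dvd_finsetProd_iff _).1 h1
    have h2 : r = r' := (Nat.prime_dvd_prime_iff_eq hr (hPp r' hr').1).1 hd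
    subst h2
    have h3 : u % r = c r % r := hur r hr'
    rw [h3]
    exact (hc r (hPp r hr')).2.1
  · intro p hp hpu hwp n hn hnw
    have hF : Fact p.Prime := ⟨hp⟩
    have hp8 : p % 8 = 7 := by
      have h1 : p ≡ u [MOD 8] := hpu.of_dvd (Dvd.intro _ rfl)
      have h2 : p % 8 = u % 8 := h1
      omega
    have hp2 : p ≠ 2 := by
      rintro rfl
      omega
    have hleg : ∀ r : ℕ, r.Prime → r ≤ w → legendreSym p r = if r ∈ T then -1 else 1 := by
      intro r hr hrw
      by_cases hr2 : r = 2
      · subst hr2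
        rw [if_neg hT2]
        have h1 : ((2 : ℕ) : ZMod p) ≠ 0 := by
          rw [Ne, ZMod.natCast_eq_zero_iff]
          intro h
          have := Nat.le_of_dvd (by norm_num) h
          have := hp.two_le
          omega
        rw [legendreSym.eq_one_iff' p h1]
        have h2 := (ZMod.exists_sq_eq_two_iff hp2).2 (Or.inr hp8)
        exact_mod_cast h2
      · have hrP : r ∈ P := Finset.mem_filter.2 ⟨Finset.mem_range.2 (by omega), hr, hr2⟩
        have hFr : Fact r.Prime := ⟨hr⟩
        have h1 : p ≡ c r [MOD r] := by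
          have h2 : p ≡ u [MOD r] := hpu.of_dvd (Dvd.dvd.mul_left (Finset.dvd_prod_of_mem _ hrP) _)
          exact h2.trans (hur r hrP)
        have h3 := (hc r ⟨hr, hr2⟩).2.2 p h1 hFr
        have h4 := legendreSym.quadratic_reciprocity' (p := r) (q := p) hr2 hp2
        rw [h4, h3]
        have h5 : Odd (p / 2) := by
          rw [Nat.odd_iff]
          omega
        rw [pow_mul]
        rcases neg_one_pow_eq_or ℤ (r / 2) with h | h
        · rw [h, one_pow, one_mul, one_mul]
        · rw [h, h5.neg_one_pow]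
          ring
    have hn0 : ((n : ℕ) : ZMod p) ≠ 0 := by
      rw [Ne, ZMod.natCast_eq_zero_iff]
      intro h
      have := Nat.le_of_dvd (by omega) h
      omega
    rw [← legendreSym.eq_one_iff' p hn0, legendre_eq T p w hleg n hn hnw]
    unfold Pool.Agent.Helper18.BV.odd
    rw [Nat.not_odd_iff_even]
    exact neg_one_pow_eq_one_iff_even (by norm_num)

end Pool.Agent.Helper46.BV
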