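import Mathlib
import Pool.Agent.Helper18.BV.St

/-!
# Project BV, module D1: few primes modulo which several independent integers have small order
-/

set_option autoImplicit false

open Finset

namespace Pool.Agent.Helper46.BV

open Pool.Agent.Helper18.BV

/-- positive part of the monomial -/
def PP {h : ℕ} (b : Fin h → ℕ) (f : Fin h → ℤ) : ℕ := ∏ i, b i ^ (f i).toNat

theorem PP_pos {h : ℕ} {b : Fin h → ℕ} (hb : ∀ i, 2 ≤ b i) (f : Fin h → ℤ) : 0 < PP b f :=
  Finset.prod_pos fun i _ => pow_pos (by have := hb i; omega) _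

theorem PP_ne {h : ℕ} {b : Fin h → ℕ} (hb : ∀ i, 2 ≤ b i)
    (hind : ∀ e : Fin h → ℤ, ∏ i, ((b i : ℕ) : ℚ) ^ e i = 1 → e = 0) {f : Fin h → ℤ}
    (hf : f ≠ 0) : PP b f ≠ PP b (-f) := by
  intro heq
  refine hf (hind f ?_)
  have h1 : ∀ i, ((b i : ℕ) : ℚ) ^ f i = (b i : ℚ) ^ (f i).toNat / (b i : ℚ) ^ (-f i).toNat := by
    intro i
    have h0 : ((b i : ℕ) : ℚ) ≠ 0 := by
      have := hb i
      positivity
    rw [← zpow_natCast, ← zpow_natCast, ← zpow_sub₀ h0]
    congr 1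
    have := Int.toNat_sub_toNat_neg (f i)
    omega
  rw [Finset.prod_congr rfl fun i _ => h1 i, Finset.prod_div_distrib]
  have h2 : (∏ i, (b i : ℚ) ^ (f i).toNat) = (PP b f : ℚ) := by
    unfold PP
    push_cast
    rfl
  have h3 : (∏ i, (b i : ℚ) ^ (-f i).toNat) = (PP b (-f) : ℚ) := by
    unfold PP
    push_cast
    rfl
  rw [h2, h3, ← heq]
  exact div_self (by exact_mod_cast (PP_pos hb f).ne')

theorem PP_le {h : ℕ} {b : Fin h → ℕ} (hb : ∀ i, 2 ≤ b i) {E : ℕ} {f : Fin h → ℤ}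
    (hf : ∀ i, f i ≤ E) : PP b f ≤ (∏ i, b i) ^ E := by
  unfold PP
  rw [← Finset.prod_pow]
  refine Finset.prod_le_prod' fun i _ => ?_
  refine Nat.pow_le_pow_right (by have := hb i; omega) ?_
  have := hf i
  omega

theorem card_primeFactors_le {n m : ℕ} (hn : n ≠ 0) (h : n ≤ 2 ^ m) : n.primeFactors.card ≤ m := by
  have h1 : 2 ^ n.primeFactors.card ≤ ∏ p ∈ n.primeFactors, p := by
    rw [← Finset.prod_const]
    exact Finset.prod_le_prod' fun p hp => (Nat.prime_of_mem_primeFactors hp).two_le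
  have h2 : ∏ p ∈ n.primeFactors, p ≤ n := Nat.le_of_dvd (Nat.pos_of_ne_zero hn)
    (Nat.prod_primeFactors_dvd n)
  exact (Nat.pow_le_pow_iff_right (by norm_num)).1 ((h1.trans h2).trans h)

/-- the number attached to a vector -/
def NN {h : ℕ} (b : Fin h → ℕ) (f : Fin h → ℤ) : ℕ := ((PP b f : ℤ) - PP b (-f)).natAbs

theorem NN_ne {h : ℕ} {b : Fin h → ℕ} (hb : ∀ i, 2 ≤ b i)
    (hind : ∀ e : Fin h → ℤ, ∏ i, ((b i : ℕ) : ℚ) ^ e i = 1 → e = 0) {f : Fin h → ℤ}
    (hf : f ≠ 0) : NN b f ≠ 0 := by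
  unfold NN
  rw [Int.natAbs_ne_zero, sub_ne_zero]
  exact_mod_cast PP_ne hb hind hf

theorem NN_le {h : ℕ} {b : Fin h → ℕ} (hb : ∀ i, 2 ≤ b i) {E : ℕ} {f : Fin h → ℤ}
    (hf : ∀ i, |f i| ≤ E) : NN b f ≤ (∏ i, b i) ^ E := by
  have h1 : PP b f ≤ (∏ i, b i) ^ E := PP_le hb fun i => (le_abs_self _).trans (hf i)
  have h2 : PP b (-f) ≤ (∏ i, b i) ^ E := PP_le hb fun i => by
    rw [Pi.neg_apply]
    exact (neg_le_abs _).trans (hf i)
  unfold NN
  omega

theorem dvd_NN {h : ℕ} {b : Fin h → ℕ} {p : ℕ} (hp : p.Prime) (hpb : ∀ i, ¬ p ∣ b i)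
    {e e' : Fin h → ℕ}
    (he : ∏ i, ((b i : ℕ) : ZMod p) ^ e i = ∏ i, ((b i : ℕ) : ZMod p) ^ e' i) :
    p ∣ NN b (fun i => (e i : ℤ) - e' i) := by
  have := Fact.mk hp
  have h0 : ∀ i, ((b i : ℕ) : ZMod p) ≠ 0 := fun i h => hpb i ((ZMod.natCast_eq_zero_iff _ _).1 h)
  have h1 : ((PP b (fun i => (e i : ℤ) - e' i) : ℕ) : ZMod p) =
      ((PP b (-(fun i => (e i : ℤ) - e' i)) : ℕ) : ZMod p) := by
    have h2 : (∏ i, ((b i : ℕ) : ZMod p) ^ min (e i) (e' i)) ≠ 0 :=
      Finset.prod_ne_zero_iff.2 fun i _ => pow_ne_zero _ (h0 i)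
    apply mul_right_cancel₀ h2
    unfold PP
    push_cast
    rw [← Finset.prod_mul_distrib, ← Finset.prod_mul_distrib]
    have h3 : ∀ i, ((b i : ℕ) : ZMod p) ^ ((e i : ℤ) - e' i).toNat *
        ((b i : ℕ) : ZMod p) ^ min (e i) (e' i) = ((b i : ℕ) : ZMod p) ^ e i := by
      intro i
      rw [← pow_add]
      congr 1
      omega
    have h4 : ∀ i, ((b i : ℕ) : ZMod p) ^ ((-(fun i => (e i : ℤ) - e' i)) i).toNat *
        ((b i : ℕ) : ZMod p) ^ min (e i) (e' i) = ((b i : ℕ) : ZMod p) ^ e' i := by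
      intro i
      rw [← pow_add, Pi.neg_apply]
      congr 1
      omega
    rw [Finset.prod_congr rfl fun i _ => h3 i, Finset.prod_congr rfl fun i _ => h4 i]
    exact he
  unfold NN
  rw [← Int.natCast_dvd, ← ZMod.intCast_zmod_eq_zero_iff_dvd]
  push_cast
  rw [h1, sub_self]

theorem rankLemma : RankLemma := by
  intro h b hh hb hind
  refine ⟨3 ^ h * (∏ i, b i : ℕ), ?_, fun y hy S hS => ?_⟩
  · have : 0 < ∏ i, b i := Finset.prod_pos fun i _ => by have := hb i; omega
    positivity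
  have hy0 : 0 < y := lt_of_lt_of_le one_pos hy
  have hh' : (h : ℝ) ≠ 0 := by positivity
  set z : ℝ := y ^ (1 / (h : ℝ)) with hz
  have hz1 : 1 ≤ z := Real.one_le_rpow hy (by positivity)
  set E : ℕ := ⌊z⌋₊ with hE
  have hE1 : 1 ≤ E := Nat.le_floor (by simpa using hz1)
  have hEz : (E : ℝ) ≤ z := Nat.floor_le (by linarith)
  have hEy : y < ((E + 1 : ℕ) : ℝ) ^ h := by
    have h1 : z < E + 1 := Nat.lt_floor_add_one z
    have h2 : z ^ h = y := by
      rw [hz, ← Real.rpow_natCast, ← Real.rpow_mul hy0.le, one_div_mul_cancel hh', Real.rpow_one]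
    rw [← h2]
    push_cast
    exact pow_lt_pow_left₀ h1 (by linarith) hh.ne'
  -- the box
  set Bx : Finset (Fin h → ℤ) := Fintype.piFinset fun _ => Icc (-(E : ℤ)) E with hBx
  have hcardBx : Bx.card = (2 * E + 1) ^ h := by
    rw [hBx, Fintype.card_piFinset]
    simp only [Int.card_Icc, Finset.prod_const, Finset.card_univ, Fintype.card_fin]
    congr 1
    omega
  have hsub : S ⊆ (Bx.filter (fun f => f ≠ 0)).biUnion fun f => (NN b f).primeFactors := by
    intro p hp
    obtain ⟨hpr, hpb, k, hk0, hky, hk⟩ := hS p hp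
    have := Fact.mk hpr
    have hkE : k < (E + 1) ^ h := by
      have : (k : ℝ) < (((E + 1) ^ h : ℕ) : ℝ) := by
        push_cast
        push_cast at hEy
        exact hky.trans_lt hEy
      exact_mod_cast this
    let D : Finset (Fin h → Fin (E + 1)) := univ
    let R : Finset (ZMod p) := (Polynomial.nthRoots k (1 : ZMod p)).toFinset
    have hR : R.card ≤ k := (Multiset.toFinset_card_le _).trans (Polynomial.card_nthRoots k 1)
    have hlt : R.card < D.card := by
      have : D.card = (E + 1) ^ h := by simp [D]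
      omega
    obtain ⟨e, -, e', -, hne, heq⟩ := Finset.exists_ne_map_eq_of_card_lt_of_maps_to hlt
      (f := fun e => ∏ i, ((b i : ℕ) : ZMod p) ^ (e i : ℕ)) (by
        intro e _
        simp only [R, Finset.mem_coe, Multiset.mem_toFinset, Polynomial.mem_nthRoots hk0]
        rw [← Finset.prod_pow]
        refine Finset.prod_eq_one fun i _ => ?_
        rw [← pow_mul, mul_comm, pow_mul, hk i, one_pow])
    rw [Finset.mem_biUnion]
    refine ⟨fun i => ((e i : ℕ) : ℤ) - ((e' i : ℕ) : ℤ), ?_, ?_⟩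
    · rw [Finset.mem_filter, hBx, Fintype.mem_piFinset]
      refine ⟨fun i => ?_, fun h0 => hne ?_⟩
      · rw [Finset.mem_Icc]
        have h1 := (e i).2
        have h2 := (e' i).2
        constructor <;> omega
      · funext i
        have := congrFun h0 i
        simp only [Pi.zero_apply] at this
        apply Fin.ext
        omega
    · rw [Nat.mem_primeFactors]
      refine ⟨hpr, dvd_NN hpr hpb heq, NN_ne hb hind fun h0 => hne ?_⟩
      funext i
      have := congrFun h0 i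
      simp only [Pi.zero_apply] at this
      apply Fin.ext
      omega
  have hcard : S.card ≤ (2 * E + 1) ^ h * (E * ∏ i, b i) := by
    refine (Finset.card_le_card hsub).trans (Finset.card_biUnion_le.trans ?_)
    refine (Finset.sum_le_card_nsmul _ _ (E * ∏ i, b i) fun f hf => ?_).trans ?_
    · rw [Finset.mem_filter, hBx, Fintype.mem_piFinset] at hf
      refine card_primeFactors_le (NN_ne hb hind hf.2) ?_
      refine (NN_le hb (E := E) fun i => ?_).trans ?_
      · have := Finset.mem_Icc.1 (hf.1 i)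
        rw [abs_le]
        exact this
      · rw [mul_comm E, pow_mul]
        exact Nat.pow_le_pow_left (Nat.lt_two_pow_self).le _
    · rw [smul_eq_mul]
      refine Nat.mul_le_mul_right _ ?_
      rw [← hcardBx]
      exact Finset.card_filter_le _ _
  have h1 : (2 * E + 1) ^ h ≤ (3 * E) ^ h := Nat.pow_le_pow_left (by omega) _
  have h2 : S.card ≤ 3 ^ h * (∏ i, b i) * E ^ (h + 1) := by
    refine hcard.trans ((Nat.mul_le_mul_right _ h1).trans (le_of_eq ?_))
    rw [mul_pow, pow_succ]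
    ring
  have h3 : (E : ℝ) ^ (h + 1) ≤ y ^ (1 + 1 / (h : ℝ)) := by
    have h4 : z ^ (h + 1) = y ^ (1 + 1 / (h : ℝ)) := by
      rw [hz, ← Real.rpow_natCast, ← Real.rpow_mul hy0.le]
      congr 1
      push_cast
      field_simp
    rw [← h4]
    exact pow_le_pow_left₀ (by positivity) hEz _
  calc (S.card : ℝ) ≤ ((3 ^ h * (∏ i, b i) * E ^ (h + 1) : ℕ) : ℝ) := by exact_mod_cast h2
    _ = 3 ^ h * ((∏ i, b i : ℕ) : ℝ) * (E : ℝ) ^ (h + 1) := by push_cast; ring
    _ ≤ 3 ^ h * ((∏ i, b i : ℕ) : ℝ) * y ^ (1 + 1 / (h : ℝ)) := by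
      exact mul_le_mul_of_nonneg_left h3 (by positivity)

end Pool.Agent.Helper46.BV
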